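import Pool.Agent.Lib.MP_6b8fc7_nt.SR.Main

set_option autoImplicit false

/-!
A lower bound for the singular product.
-/

namespace Pool.Agent.Lib.MP_6b8fc7_nt.SR

open Finset Polynomial Filter
open Pool.Agent.Lib.MP_0da313_nt (card_roots_mod_le card_roots_mod_lt)

lemma sing_lb (hsv : ∀ k : ℕ, ∃ c : ℝ, 0 < c ∧ ∀ n : ℕ, 2 ≤ n → ∀ w : ℕ → ℕ,
    (∀ p : ℕ, p.Prime → w p ≤ k ∧ w p < p) →
    c / (Real.log n) ^ k ≤ ∏ p ∈ (Icc 1 n).filter Nat.Prime, (1 - (w p : ℝ) / p))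
    (K : ℕ) (hK : 1 ≤ K) :
    ∃ c : ℝ, 0 < c ∧ ∀ h : Fin K → ℕ, (∀ i, ∀ p : ℕ, p.Prime → p ≤ 2 * K + 1 → p ∣ h i) →
      ∀ n : ℕ, 2 ≤ n → (n % 6 = 1 ∨ n % 6 = 3) →
      c / (Real.log n) ^ (2 * K + 1) ≤ sing h n := by
  obtain ⟨c, hc, H⟩ := hsv (2 * K + 1)
  refine ⟨c, hc, fun h hdiv n hn hr => H n hn (fun p => om h n p) (fun p hp => ?_)⟩
  set G : ℤ[X] := X * ∏ i : Fin K, (C ((n : ℤ) + (h i : ℤ)) - C 2 * X ^ 2) with hG
  have hev : ∀ x : ℤ, G.eval x = x * ∏ i, ((n : ℤ) + h i - 2 * x ^ 2) := by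
    intro x
    rw [hG]
    simp only [eval_mul, eval_X, eval_prod, eval_sub, eval_C, eval_pow]
  have hdeg : G.natDegree ≤ 2 * K + 1 := by
    refine (natDegree_mul_le).trans ?_
    have h1 : (∏ i : Fin K, (C ((n : ℤ) + (h i : ℤ)) - C 2 * X ^ 2) : ℤ[X]).natDegree ≤
        2 * K := by
      refine (natDegree_prod_le _ _).trans ?_
      calc ∑ i : Fin K, (C ((n : ℤ) + (h i : ℤ)) - C 2 * X ^ 2 : ℤ[X]).natDegree ≤
            ∑ _i : Fin K, 2 := Finset.sum_le_sum fun i _ => by compute_degree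
        _ = 2 * K := by simp [mul_comm]
    have h2 : (X : ℤ[X]).natDegree ≤ 1 := natDegree_X_le
    omega
  have hno : ¬ ∀ x : ℤ, (p : ℤ) ∣ G.eval x := by
    intro hall
    obtain ⟨x, hx⟩ := local_ok hK (n : ℤ) (by omega) (by omega) (fun i => (h i : ℤ))
      (fun i p hp hpK => by exact_mod_cast hdiv i p hp hpK) p hp
    apply hx
    rw [← hev]
    exact hall x
  have he : om h n p = ((range p).filter (fun r : ℕ => (p : ℤ) ∣ G.eval (r : ℤ))).card := by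
    unfold om
    congr 1
    apply Finset.filter_congr
    intro t _
    rw [hev]
  rw [he]
  exact ⟨card_roots_mod_le G p _ hp hdeg hno, card_roots_mod_lt G p hp hno⟩

end Pool.Agent.Lib.MP_6b8fc7_nt.SR
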