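import Pool.Agent.Lib.MP_6b8fc7_nt.SR.Final
import Pool.Agent.Lib.MP_6b8fc7_nt.SR.Sv

set_option autoImplicit false

/-!
The two statements with one constant.
-/

namespace Pool.Agent.Lib.MP_6b8fc7_nt.SR

open Finset Filter

open Classical in
theorem comb
    (hsv : ∀ k : ℕ, ∃ c : ℝ, 0 < c ∧ ∀ n : ℕ, 2 ≤ n → ∀ w : ℕ → ℕ,
      (∀ p : ℕ, p.Prime → w p ≤ k ∧ w p < p) →
      c / (Real.log n) ^ k ≤ ∏ p ∈ (Icc 1 n).filter Nat.Prime, (1 - (w p : ℝ) / p))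
    (hm : ∃ c₀ : ℝ, 0 < c₀ ∧ ∀ K : ℕ, 1 ≤ K → ∃ (B : ℕ) (c : ℝ), 0 < c ∧ ∀ h : Fin K → ℕ,
      Function.Injective h → (∀ i, ∀ p : ℕ, p.Prime → p ≤ 2 * K + 1 → p ∣ h i) → ∀ A : ℕ,
      ∀ᶠ N : ℕ in atTop, (((Icc 1 N).filter (fun n : ℕ => (n % 6 = 1 ∨ n % 6 = 3) ∧
        ¬ (c * (Real.sqrt n * sing h n) ≤ (Set.ncard (Good c₀ B h n) : ℝ)))).card : ℝ) ≤
        N / (Real.log N) ^ A) :
    ∃ c₀ : ℝ, 0 < c₀ ∧ ∀ K : ℕ, 1 ≤ K → ∃ (B : ℕ) (c : ℝ), 0 < c ∧ ∀ h : Fin K → ℕ,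
      Function.Injective h → (∀ i, ∀ p : ℕ, p.Prime → p ≤ 2 * K + 1 → p ∣ h i) →
      (∀ n : ℕ, 2 ≤ n → (n % 6 = 1 ∨ n % 6 = 3) →
        c / (Real.log n) ^ (2 * K + 1) ≤ sing h n) ∧
      ∀ A : ℕ, ∀ᶠ N : ℕ in atTop,
        (((Icc 1 N).filter (fun n : ℕ => (n % 6 = 1 ∨ n % 6 = 3) ∧
          ¬ (c * (Real.sqrt n * sing h n) ≤ (Set.ncard (Good c₀ B h n) : ℝ)))).card : ℝ) ≤
          N / (Real.log N) ^ A := by
  obtain ⟨c₀, hc₀, H⟩ := hm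
  refine ⟨c₀, hc₀, fun K hK => ?_⟩
  obtain ⟨B, c, hc, H⟩ := H K hK
  obtain ⟨c', hc', H'⟩ := sing_lb hsv K hK
  refine ⟨B, min c c', lt_min hc hc', fun h hinj hdiv => ⟨fun n hn hr => ?_, fun A => ?_⟩⟩
  · refine le_trans ?_ (H' h hdiv n hn hr)
    apply div_le_div_of_nonneg_right (min_le_right _ _)
    have : 0 ≤ Real.log n := Real.log_nonneg (by exact_mod_cast (show 1 ≤ n by omega))
    positivity
  · filter_upwards [H h hinj hdiv A] with N hN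
    refine le_trans (Nat.cast_le.2 (Finset.card_le_card ?_)) hN
    intro n hn
    rw [Finset.mem_filter] at hn ⊢
    refine ⟨hn.1, hn.2.1, fun hle => hn.2.2 (le_trans ?_ hle)⟩
    apply mul_le_mul_of_nonneg_right (min_le_left _ _)
    apply mul_nonneg (Real.sqrt_nonneg _)
    unfold sing
    apply Finset.prod_nonneg
    intro p hp
    have hpp := (Finset.mem_filter.1 hp).2
    have h0 : (0 : ℝ) < p := by exact_mod_cast hpp.pos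
    have h1 : (SR.om h n p : ℝ) ≤ p := by exact_mod_cast om_le h n p
    have h2 : (SR.om h n p : ℝ) / p ≤ 1 := (div_le_one h0).2 h1
    linarith

end Pool.Agent.Lib.MP_6b8fc7_nt.SR
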