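import Pool.Agent.Lib.MP_0da313_nt.MT.Defs
import Pool.Agent.Lib.MP_0da313_nt.Poly

set_option autoImplicit false

/-!
The family `x`, `6 (x + y) + r + h_i - 2 x ^ 2` and its admissibility.
-/

namespace Pool.Agent.Lib.MP_6b8fc7_nt.SR

open Finset Polynomial
open Pool.Agent.Lib.MP_0da313_nt (Admissible lineRestrict val singV nroots eval_lineRestrict)

/-- `c - 2 X^2` with `c` odd is irreducible over the integers -/
lemma irr_quad (c : ℤ) (hc : c % 2 = 1) : Irreducible (C c - C 2 * X ^ 2 : ℤ[X]) := by
  have hdeg : (C c - C 2 * X ^ 2 : ℤ[X]).natDegree = 2 := by compute_degree!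
  have key : ∀ f g : ℤ[X], (C c - C 2 * X ^ 2 : ℤ[X]) = f * g → f.natDegree = 0 → IsUnit f := by
    intro f g hfg hf
    rw [eq_C_of_natDegree_eq_zero hf] at hfg ⊢
    have h0 : f.coeff 0 ∣ c := by
      have h1 := congrArg (fun q : ℤ[X] => q.coeff 0) hfg
      simp only [coeff_sub, coeff_C_mul, coeff_X_pow, coeff_C_zero] at h1
      norm_num at h1
      exact ⟨_, h1⟩
    have h2 : f.coeff 0 ∣ 2 := by
      have h1 := congrArg (fun q : ℤ[X] => q.coeff 2) hfg
      simp only [coeff_sub, coeff_C_mul, coeff_X_pow, coeff_C] at h1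
      norm_num at h1
      exact ⟨-(g.coeff 2), by linarith⟩
    have h3 : IsUnit (f.coeff 0) := by
      rw [Int.isUnit_iff_natAbs_eq]
      have h4 : (f.coeff 0).natAbs ∣ 2 := by
        have := Int.natAbs_dvd_natAbs.2 h2
        simpa using this
      have h5 := Nat.le_of_dvd (by norm_num) h4
      have h6 : (f.coeff 0).natAbs ≠ 0 := by
        intro h7
        rw [h7] at h4
        omega
      have h8 : (f.coeff 0).natAbs ≠ 2 := by
        intro h7
        have h9 : (2 : ℤ) ∣ c := by
          have : (2 : ℤ) ∣ f.coeff 0 := by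
            rw [← Int.natAbs_dvd_natAbs]
            rw [h7]
            norm_num
          exact this.trans h0
        omega
      omega
    exact h3.map C
  refine ⟨fun hu => ?_, fun {f g} hfg => ?_⟩
  · have := natDegree_eq_zero_of_isUnit hu
    omega
  · have hne : (C c - C 2 * X ^ 2 : ℤ[X]) ≠ 0 := fun h0 => by
      rw [h0, natDegree_zero] at hdeg
      omega
    have hf0 : f ≠ 0 := fun h => hne (by rw [hfg, h, zero_mul])
    have hg0 : g ≠ 0 := fun h => hne (by rw [hfg, h, mul_zero])
    have hd : f.natDegree + g.natDegree = 2 := by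
      rw [← natDegree_mul hf0 hg0, ← hfg, hdeg]
    by_cases h1 : f.natDegree = 0
    · exact Or.inl (key f g hfg h1)
    · by_cases h2 : g.natDegree = 0
      · exact Or.inr (key g f (by rw [hfg, mul_comm]) h2)
      · exfalso
        have e1 : f.natDegree = 1 := by omega
        have e2 : g.natDegree = 1 := by omega
        have f1 : f = C (f.coeff 1) * X + C (f.coeff 0) := eq_X_add_C_of_natDegree_le_one e1.le
        have g1 : g = C (g.coeff 1) * X + C (g.coeff 0) := eq_X_add_C_of_natDegree_le_one e2.le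
        have c0 := congrArg (fun q : ℤ[X] => q.eval 0) hfg
        have c1 := congrArg (fun q : ℤ[X] => q.eval 1) hfg
        have c2 := congrArg (fun q : ℤ[X] => q.eval (-1)) hfg
        rw [f1, g1] at c0 c1 c2
        simp only [eval_sub, eval_C, eval_mul, eval_pow, eval_X, eval_add] at c0 c1 c2
        generalize f.coeff 1 = a at c0 c1 c2
        generalize f.coeff 0 = b at c0 c1 c2
        generalize g.coeff 1 = a' at c0 c1 c2
        generalize g.coeff 0 = b' at c0 c1 c2
        have d1 : a * a' = -2 := by linarith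
        have d2 : b * b' = c := by linarith
        have d3 : a * b' + b * a' = 0 := by linarith
        have o1 : b % 2 = 1 := by
          rcases Int.emod_two_eq_zero_or_one b with h | h
          · exfalso
            have : (2 : ℤ) ∣ c := by
              rw [← d2]
              exact Dvd.dvd.mul_right (Int.dvd_of_emod_eq_zero h) _
            omega
          · exact h
        have o2 : b' % 2 = 1 := by
          rcases Int.emod_two_eq_zero_or_one b' with h | h
          · exfalso
            have : (2 : ℤ) ∣ c := by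
              rw [← d2]
              exact Dvd.dvd.mul_left (Int.dvd_of_emod_eq_zero h) _
            omega
          · exact h
        have hb : ∃ u, b = 2 * u + 1 := ⟨b / 2, by omega⟩
        have hb' : ∃ u, b' = 2 * u + 1 := ⟨b' / 2, by omega⟩
        obtain ⟨u, rfl⟩ := hb
        obtain ⟨w, rfl⟩ := hb'
        rcases Int.emod_two_eq_zero_or_one a with h | h <;>
          rcases Int.emod_two_eq_zero_or_one a' with h' | h'
        · obtain ⟨s, rfl⟩ : ∃ s, a = 2 * s := ⟨a / 2, by omega⟩
          obtain ⟨t, rfl⟩ : ∃ t, a' = 2 * t := ⟨a' / 2, by omega⟩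
          have : 4 * (s * t) = -2 := by linarith
          omega
        · obtain ⟨s, rfl⟩ : ∃ s, a = 2 * s := ⟨a / 2, by omega⟩
          obtain ⟨t, rfl⟩ : ∃ t, a' = 2 * t + 1 := ⟨a' / 2, by omega⟩
          have : 2 * (s * (2 * w + 1) + 2 * u * t + u + t) + 1 = 0 := by linarith
          omega
        · obtain ⟨s, rfl⟩ : ∃ s, a = 2 * s + 1 := ⟨a / 2, by omega⟩
          obtain ⟨t, rfl⟩ : ∃ t, a' = 2 * t := ⟨a' / 2, by omega⟩
          have : 2 * (2 * s * w + s + w + (2 * u + 1) * t) + 1 = 0 := by linarith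
          omega
        · obtain ⟨s, rfl⟩ : ∃ s, a = 2 * s + 1 := ⟨a / 2, by omega⟩
          obtain ⟨t, rfl⟩ : ∃ t, a' = 2 * t + 1 := ⟨a' / 2, by omega⟩
          have : 2 * (2 * s * t + s + t) + 1 = -2 := by linarith
          omega

/-- no fixed prime divisor -/
lemma local_ok {K : ℕ} (hK : 1 ≤ K) (n : ℤ) (hn2 : n % 2 = 1) (hn3 : n % 3 ≠ 2) (h : Fin K → ℤ)
    (hh : ∀ i, ∀ p : ℕ, p.Prime → p ≤ 2 * K + 1 → (p : ℤ) ∣ h i) (p : ℕ) (hp : p.Prime) :
    ∃ x : ℤ, ¬ (p : ℤ) ∣ x * ∏ i, (n + h i - 2 * x ^ 2) := by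
  have hpZ : Prime (p : ℤ) := Nat.prime_iff_prime_int.1 hp
  by_cases hpK : p ≤ 2 * K + 1
  · -- all `h i` vanish mod `p`
    have hx : ∃ x : ℤ, ¬ (p : ℤ) ∣ x ∧ ¬ (p : ℤ) ∣ n - 2 * x ^ 2 := by
      have hp2 := hp.two_le
      by_cases h2 : p = 2
      · subst h2
        exact ⟨1, by norm_num, by norm_num; omega⟩
      by_cases h3 : p = 3
      · subst h3
        exact ⟨1, by norm_num, by norm_num; omega⟩
      have hp5 : 5 ≤ p := by
        by_contra hcon
        have : p = 4 := by omega
        subst this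
        exact absurd hp (by decide)
      have nd : ∀ t : ℤ, 0 < t → t < 5 → ¬ (p : ℤ) ∣ t := fun t ht1 ht2 hd => by
        have := Int.le_of_dvd ht1 hd
        omega
      by_cases h1 : (p : ℤ) ∣ n - 2 * 1 ^ 2
      · refine ⟨2, nd 2 (by norm_num) (by norm_num), fun h4 => ?_⟩
        have h5 : (p : ℤ) ∣ 6 := by
          have := dvd_sub h1 h4
          have e : (n - 2 * 1 ^ 2 - (n - 2 * 2 ^ 2) : ℤ) = 6 := by ring
          rwa [e] at this
        have h6 : (6 : ℤ) = 2 * 3 := by norm_num
        rw [h6] at h5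
        rcases hpZ.dvd_or_dvd h5 with h7 | h7
        · exact nd 2 (by norm_num) (by norm_num) h7
        · exact nd 3 (by norm_num) (by norm_num) h7
      · exact ⟨1, nd 1 (by norm_num) (by norm_num), h1⟩
    obtain ⟨x, hx1, hx2⟩ := hx
    refine ⟨x, fun hd => ?_⟩
    rcases hpZ.dvd_or_dvd hd with hd | hd
    · exact hx1 hd
    · obtain ⟨i, _, hi⟩ := (hpZ.dvd_finsetProd_iff _).1 hd
      apply hx2
      have h1 := hh i p hp hpK
      have h2 := dvd_sub hi h1
      have e : n + h i - 2 * x ^ 2 - h i = n - 2 * x ^ 2 := by ring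
      rwa [e] at h2
  · push Not at hpK
    haveI : Fact p.Prime := ⟨hp⟩
    by_contra hcon
    push Not at hcon
    set F : (ZMod p)[X] := X * ∏ i : Fin K, (C ((n + h i : ℤ) : ZMod p) - C 2 * X ^ 2) with hF
    have h20 : (2 : ZMod p) ≠ 0 := by
      intro h0
      have : ((2 : ℕ) : ZMod p) = 0 := by exact_mod_cast h0
      rw [ZMod.natCast_eq_zero_iff] at this
      have := Nat.le_of_dvd (by norm_num) this
      omega
    have hne : ∀ i : Fin K, (C ((n + h i : ℤ) : ZMod p) - C 2 * X ^ 2 : (ZMod p)[X]) ≠ 0 := by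
      intro i h0
      have := congrArg (fun q : (ZMod p)[X] => q.coeff 2) h0
      simp only [coeff_sub, coeff_C_mul, coeff_X_pow, coeff_C, coeff_zero] at this
      norm_num at this
      exact h20 this
    have hF0 : F ≠ 0 := mul_ne_zero X_ne_zero (Finset.prod_ne_zero_iff.2 fun i _ => hne i)
    have hdeg : F.natDegree ≤ 2 * K + 1 := by
      refine (natDegree_mul_le).trans ?_
      have h1 : (∏ i : Fin K, (C ((n + h i : ℤ) : ZMod p) - C 2 * X ^ 2) : (ZMod p)[X]).natDegree ≤
          2 * K := by
        refine (natDegree_prod_le _ _).trans ?_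
        calc ∑ i : Fin K, (C ((n + h i : ℤ) : ZMod p) - C 2 * X ^ 2 : (ZMod p)[X]).natDegree ≤
              ∑ _i : Fin K, 2 := Finset.sum_le_sum fun i _ => by compute_degree
          _ = 2 * K := by simp [mul_comm]
      have h2 : (X : (ZMod p)[X]).natDegree ≤ 1 := natDegree_X_le
      omega
    apply hF0
    apply Polynomial.eq_zero_of_natDegree_lt_card_of_eval_eq_zero (f := fun x : ZMod p => x)
    · intro a b hab
      exact hab
    · intro x
      obtain ⟨y, rfl⟩ : ∃ y : ℤ, (y : ZMod p) = x := ZMod.intCast_surjective x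
      have h1 := hcon y
      rw [← ZMod.intCast_zmod_eq_zero_iff_dvd] at h1
      rw [hF]
      simp only [eval_mul, eval_X, eval_prod, eval_sub, eval_C, eval_pow]
      push_cast at h1 ⊢
      exact h1
    · rw [ZMod.card]
      omega

end Pool.Agent.Lib.MP_6b8fc7_nt.SR
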