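import Pool.Agent.Lib.MP_6b8fc7_nt.SR.Main

set_option autoImplicit false

/-!
The theorem on simultaneous representations `n + h = p + 2 q ^ 2`, from the general theorem of
`Lib/MP_0da313_nt/HC` (a hypothesis here).
-/

namespace Pool.Agent.Lib.MP_6b8fc7_nt.SR

open Finset Polynomial Filter
open ArithmeticFunction (cardFactors)
open Pool.Agent.Lib.MP_0da313_nt (Admissible lineRestrict val singV nroots eval_lineRestrict)

variable {K : ℕ}

open Classical in
/-- the primes `q` that represent many of the `n + h_i` -/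
def Good (c₀ : ℝ) (B : ℕ) (h : Fin K → ℕ) (n : ℕ) : Set ℕ :=
  {q : ℕ | q.Prime ∧ 2 * q ^ 2 ≤ n ∧
    c₀ * Real.log K ≤ ((univ.filter (fun i : Fin K => (n + h i - 2 * q ^ 2).Prime)).card : ℝ) ∧
    1 ≤ (univ.filter (fun i : Fin K => (n + h i - 2 * q ^ 2).Prime)).card ∧
    ∀ i, 1 < n + h i - 2 * q ^ 2 ∧ cardFactors (n + h i - 2 * q ^ 2) ≤ B ∧
      ∀ p : ℕ, p.Prime → p ∣ n + h i - 2 * q ^ 2 → n < p ^ B}

lemma Good_finite (c₀ : ℝ) (B : ℕ) (h : Fin K → ℕ) (n : ℕ) : (Good c₀ B h n).Finite := by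
  apply (Set.finite_Iic n).subset
  intro q hq
  have h1 := hq.2.1
  have h2 := hq.1.one_lt
  rw [Set.mem_Iic]
  nlinarith

open Classical in
theorem main (hua : ∃ c0 : ℝ, 0 < c0 ∧ ∀ m D : ℕ, 1 ≤ m → 1 ≤ D → ∃ (B : ℕ) (c : ℝ), 0 < c ∧
  ∀ f : Fin m → MvPolynomial (Fin 2) ℤ, Admissible f → (∀ k, (f k).totalDegree ≤ D) →
  ∀ (d : ℕ) (I J : Finset (Fin m)), 2 ≤ d → I.Nonempty →
  ∀ (a : Fin m → ℤ) (g : Fin m → ℤ[X]) (u v : Fin m → ℤ),
  (∀ k ∈ I, a k ≠ 0 ∧ (g k).natDegree = d ∧ f k = MvPolynomial.C (a k) *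
    (MvPolynomial.X 0 + MvPolynomial.X 1) + aeval (MvPolynomial.X 0) (g k)) →
  (∀ k ∈ I, ∀ l ∈ I, k ≠ l → f k ≠ f l ∧ f k ≠ - f l) →
  (∀ k ∈ J, u k ≠ 0 ∧ f k = MvPolynomial.C (u k) * MvPolynomial.X 0 + MvPolynomial.C (v k)) →
  (∀ k ∈ J, ∀ l ∈ J, k ≠ l → f k ≠ f l ∧ f k ≠ - f l) →
  ∀ A : ℕ, ∀ᶠ N : ℕ in atTop, (((Icc 1 N).filter (fun n : ℕ =>
    ¬ (c * ((n : ℝ) ^ (1 / (d : ℝ)) * singV f n) ≤
    (Set.ncard {x : ℕ | 0 < x ∧ x < n ∧ x ^ d ≤ n ∧
      (c0 * Real.log I.card ≤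
          d * ((I.filter (fun k => (val (f k) x ((n : ℤ) - x)).natAbs.Prime)).card : ℝ) ∧
        1 ≤ (I.filter (fun k => (val (f k) x ((n : ℤ) - x)).natAbs.Prime)).card) ∧
      (J.Nonempty → c0 * Real.log J.card ≤
          ((J.filter (fun k => (val (f k) x ((n : ℤ) - x)).natAbs.Prime)).card : ℝ) ∧
        1 ≤ (J.filter (fun k => (val (f k) x ((n : ℤ) - x)).natAbs.Prime)).card) ∧
      ∀ k, 1 < |val (f k) x ((n : ℤ) - x)| ∧
      (∀ p : ℕ, p.Prime → (p : ℤ) ∣ val (f k) x ((n : ℤ) - x) → n < p ^ B) ∧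
      cardFactors (val (f k) x ((n : ℤ) - x)).natAbs ≤ B * D} : ℝ)))).card : ℝ) ≤
    N / (Real.log N) ^ A) :
  ∃ c₀ : ℝ, 0 < c₀ ∧ ∀ K : ℕ, 1 ≤ K → ∃ (B : ℕ) (c : ℝ), 0 < c ∧ ∀ h : Fin K → ℕ,
    Function.Injective h → (∀ i, ∀ p : ℕ, p.Prime → p ≤ 2 * K + 1 → p ∣ h i) → ∀ A : ℕ,
    ∀ᶠ N : ℕ in atTop, (((Icc 1 N).filter (fun n : ℕ => (n % 6 = 1 ∨ n % 6 = 3) ∧
      ¬ (c * (Real.sqrt n * sing h n) ≤ (Set.ncard (Good c₀ B h n) : ℝ)))).card : ℝ) ≤
      N / (Real.log N) ^ A := by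
  obtain ⟨c0, hc0, H⟩ := hua
  refine ⟨c0 / 2, by positivity, fun K hK => ?_⟩
  obtain ⟨B, c, hc, H⟩ := H (K + 1) 2 (by omega) (by norm_num)
  refine ⟨2 * B + 4, c / 3, by positivity, fun h hinj hdiv => ?_⟩
  -- the index sets
  set I : Finset (Fin (K + 1)) := univ.map (Fin.succEmb K) with hI
  have hIcard : I.card = K := by rw [hI, Finset.card_map, Finset.card_univ, Fintype.card_fin]
  have hIne : I.Nonempty := by
    rw [← Finset.card_pos, hIcard]
    exact hK
  have hImem : ∀ k ∈ I, ∃ i : Fin K, k = i.succ := by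
    intro k hk
    rw [hI, Finset.mem_map] at hk
    obtain ⟨i, _, hi⟩ := hk
    exact ⟨i, hi.symm⟩
  set J : Finset (Fin (K + 1)) := {0} with hJ
  -- the key inclusion
  have key : ∀ r : ℕ, (r = 1 ∨ r = 3) → ∀ n : ℕ, 1 ≤ n →
      (c * ((n : ℝ) ^ (1 / ((2 : ℕ) : ℝ)) * singV (fam r h) n) ≤
    (Set.ncard {x : ℕ | 0 < x ∧ x < n ∧ x ^ 2 ≤ n ∧
      (c0 * Real.log I.card ≤
          (2 : ℕ) * ((I.filter (fun k => (val (fam r h k) x ((n : ℤ) - x)).natAbs.Prime)).card : ℝ) ∧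
        1 ≤ (I.filter (fun k => (val (fam r h k) x ((n : ℤ) - x)).natAbs.Prime)).card) ∧
      (J.Nonempty → c0 * Real.log J.card ≤
          ((J.filter (fun k => (val (fam r h k) x ((n : ℤ) - x)).natAbs.Prime)).card : ℝ) ∧
        1 ≤ (J.filter (fun k => (val (fam r h k) x ((n : ℤ) - x)).natAbs.Prime)).card) ∧
      ∀ k, 1 < |val (fam r h k) x ((n : ℤ) - x)| ∧
      (∀ p : ℕ, p.Prime → (p : ℤ) ∣ val (fam r h k) x ((n : ℤ) - x) → n < p ^ B) ∧
      cardFactors (val (fam r h k) x ((n : ℤ) - x)).natAbs ≤ B * 2} : ℝ)) →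
      c / 3 * (Real.sqrt ((6 * n + r : ℕ) : ℝ) * sing h (6 * n + r)) ≤
        (Set.ncard (Good (c0 / 2) (2 * B + 4) h (6 * n + r)) : ℝ) := by
    intro r hr n hn hle
    have hr3 : r ≤ 3 := by rcases hr with rfl | rfl <;> norm_num
    set m : ℕ := 6 * n + r with hm
    have hsub : {x : ℕ | 0 < x ∧ x < n ∧ x ^ 2 ≤ n ∧
      (c0 * Real.log I.card ≤
          (2 : ℕ) * ((I.filter (fun k => (val (fam r h k) x ((n : ℤ) - x)).natAbs.Prime)).card : ℝ) ∧
        1 ≤ (I.filter (fun k => (val (fam r h k) x ((n : ℤ) - x)).natAbs.Prime)).card) ∧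
      (J.Nonempty → c0 * Real.log J.card ≤
          ((J.filter (fun k => (val (fam r h k) x ((n : ℤ) - x)).natAbs.Prime)).card : ℝ) ∧
        1 ≤ (J.filter (fun k => (val (fam r h k) x ((n : ℤ) - x)).natAbs.Prime)).card) ∧
      ∀ k, 1 < |val (fam r h k) x ((n : ℤ) - x)| ∧
      (∀ p : ℕ, p.Prime → (p : ℤ) ∣ val (fam r h k) x ((n : ℤ) - x) → n < p ^ B) ∧
      cardFactors (val (fam r h k) x ((n : ℤ) - x)).natAbs ≤ B * 2} ⊆
        Good (c0 / 2) (2 * B + 4) h m := by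
      rintro x ⟨hx0, hxn, hx2, ⟨hI1, hI2⟩, hJ1, hall⟩
      have hxm : 2 * x ^ 2 ≤ m := by omega
      have hval : ∀ i : Fin K, (val (fam r h i.succ) x ((n : ℤ) - x)).natAbs =
          m + h i - 2 * x ^ 2 := by
        intro i
        rw [eval_succ]
        have h1 : 2 * x ^ 2 ≤ m + h i := by omega
        have h2 : ((m + h i - 2 * x ^ 2 : ℕ) : ℤ) = (m : ℤ) + (h i : ℤ) - 2 * (x : ℤ) ^ 2 := by
          rw [Nat.cast_sub h1]
          push_cast
          ring
        rw [← h2, Int.natAbs_natCast]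
      have hcardI : (I.filter (fun k => (val (fam r h k) x ((n : ℤ) - x)).natAbs.Prime)).card =
          (univ.filter (fun i : Fin K => (m + h i - 2 * x ^ 2).Prime)).card := by
        rw [hI, Finset.filter_map, Finset.card_map]
        congr 1
        apply Finset.filter_congr
        intro i _
        show (val (fam r h i.succ) x ((n : ℤ) - x)).natAbs.Prime ↔ _
        rw [hval i]
      have hx : x.Prime := by
        have h1 := (hJ1 ⟨0, by rw [hJ]; simp⟩).2
        rw [Nat.one_le_iff_ne_zero, Finset.card_ne_zero] at h1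
        obtain ⟨k, hk⟩ := h1
        rw [Finset.mem_filter, hJ, Finset.mem_singleton] at hk
        obtain ⟨hk1, hk2⟩ := hk
        rw [hk1, eval_zero, Int.natAbs_natCast] at hk2
        exact hk2
      refine ⟨hx, hxm, ?_, ?_, fun i => ?_⟩
      · rw [hcardI, hIcard] at hI1
        push_cast at hI1
        linarith
      · rw [← hcardI]
        exact hI2
      · obtain ⟨h1, h2, h3⟩ := hall i.succ
        rw [hval i] at h3
        have h4 : (1 : ℤ) < ((m + h i - 2 * x ^ 2 : ℕ) : ℤ) := by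
          rw [← hval i]
          rw [Int.natCast_natAbs]
          exact h1
        refine ⟨by exact_mod_cast h4, by omega, fun p hp hpd => ?_⟩
        have h5 : (p : ℤ) ∣ val (fam r h i.succ) x ((n : ℤ) - x) := by
          rw [← Int.dvd_natAbs, hval i]
          exact_mod_cast hpd
        have h6 := h2 p hp h5
        have h7 : m < 9 * p ^ B := by omega
        have h8 : 9 * p ^ B ≤ p ^ (2 * B + 4) := by
          have h9 : 16 ≤ p ^ 4 := by
            calc 16 = 2 ^ 4 := by norm_num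
              _ ≤ p ^ 4 := Nat.pow_le_pow_left hp.two_le 4
          calc 9 * p ^ B ≤ p ^ 4 * p ^ B := Nat.mul_le_mul_right _ (by omega)
            _ = p ^ (B + 4) := by rw [← pow_add]; congr 1; omega
            _ ≤ p ^ (2 * B + 4) := Nat.pow_le_pow_right hp.pos (by omega)
        omega
    have hn1 : (1 : ℝ) ≤ n := by exact_mod_cast hn
    have hsq : Real.sqrt ((m : ℕ) : ℝ) ≤ 3 * (n : ℝ) ^ (1 / ((2 : ℕ) : ℝ)) := by
      have h1 : (n : ℝ) ^ (1 / ((2 : ℕ) : ℝ)) = Real.sqrt n := by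
        rw [Real.sqrt_eq_rpow]
        norm_num
      rw [h1]
      apply Real.sqrt_le_iff.2
      constructor
      · positivity
      · rw [mul_pow, Real.sq_sqrt (by positivity)]
        have : (m : ℝ) ≤ 9 * n := by
          have : m ≤ 9 * n := by omega
          exact_mod_cast this
        linarith
    have hsing : sing h m ≤ singV (fam r h) n := sing_le r h n
    have hsing0 : 0 ≤ sing h m := by
      unfold sing
      apply Finset.prod_nonneg
      intro p hp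
      have hpp := (Finset.mem_filter.1 hp).2
      have h0 : (0 : ℝ) < p := by exact_mod_cast hpp.pos
      have h1 : (SR.om h m p : ℝ) ≤ p := by exact_mod_cast om_le h m p
      have h2 : (SR.om h m p : ℝ) / p ≤ 1 := (div_le_one h0).2 h1
      linarith
    calc c / 3 * (Real.sqrt ((m : ℕ) : ℝ) * sing h m) ≤
          c / 3 * ((3 * (n : ℝ) ^ (1 / ((2 : ℕ) : ℝ))) * singV (fam r h) n) := by
          apply mul_le_mul_of_nonneg_left _ (by positivity)
          exact mul_le_mul hsq hsing hsing0 (by positivity)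
      _ = c * ((n : ℝ) ^ (1 / ((2 : ℕ) : ℝ)) * singV (fam r h) n) := by ring
      _ ≤ _ := hle
      _ ≤ _ := by
          exact_mod_cast Set.ncard_le_ncard hsub (Good_finite _ _ _ _)
  -- apply the theorem for `r = 1` and `r = 3`
  have hE : ∀ r : ℕ, (r = 1 ∨ r = 3) → ∀ A : ℕ, ∀ᶠ N : ℕ in Filter.atTop,
      (((Finset.Icc 1 N).filter (fun n => ¬ (1 ≤ n ∧
        c / 3 * (Real.sqrt ((6 * n + r : ℕ) : ℝ) * sing h (6 * n + r)) ≤
        (Set.ncard (Good (c0 / 2) (2 * B + 4) h (6 * n + r)) : ℝ)))).card : ℝ) ≤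
        N / (Real.log N) ^ A := by
    intro r hr A
    have h1 := H (fam r h) (adm hK r hr h hdiv) (deg_fam r h) 2 I J le_rfl hIne (fun _ => 6)
      (gg r h) (fun _ => 1) (fun _ => 0)
      (by
        intro k hk
        obtain ⟨i, rfl⟩ := hImem k hk
        refine ⟨by norm_num, ?_, ?_⟩
        · unfold gg
          rw [Fin.cons_succ]
          exact deg_gq r h i
        · unfold fam gg
          rw [Fin.cons_succ, Fin.cons_succ])
      (by
        intro k hk l hl hkl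
        obtain ⟨i, rfl⟩ := hImem k hk
        obtain ⟨j, rfl⟩ := hImem l hl
        exact dist r hr h hinj i j (fun hij => hkl (by rw [hij])))
      (by
        intro k hk
        rw [hJ, Finset.mem_singleton] at hk
        subst hk
        refine ⟨by norm_num, ?_⟩
        unfold fam
        rw [Fin.cons_zero]
        simp)
      (by
        intro k hk l hl hkl
        rw [hJ, Finset.mem_singleton] at hk hl
        exact absurd (hk.trans hl.symm) hkl) A
    filter_upwards [h1] with N hN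
    refine le_trans ?_ hN
    apply Nat.cast_le.2
    apply Finset.card_le_card
    intro n hn
    rw [Finset.mem_filter] at hn
    refine Finset.mem_filter.2 ⟨hn.1, fun hle => hn.2 ⟨(Finset.mem_Icc.1 hn.1).1, ?_⟩⟩
    exact key r hr n (Finset.mem_Icc.1 hn.1).1 hle
  intro A
  have h3 := count_transfer (fun r n => ¬ (1 ≤ n ∧
        c / 3 * (Real.sqrt ((6 * n + r : ℕ) : ℝ) * sing h (6 * n + r)) ≤
        (Set.ncard (Good (c0 / 2) (2 * B + 4) h (6 * n + r)) : ℝ)))
        (fun r hr A => by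
          filter_upwards [hE r hr A] with N hN
          convert hN) A
  filter_upwards [h3] with N hN
  refine le_trans ?_ hN
  have h4 : (Finset.Icc 1 N).filter (fun n : ℕ => (n % 6 = 1 ∨ n % 6 = 3) ∧
      ¬ (c / 3 * (Real.sqrt n * sing h n) ≤ (Set.ncard (Good (c0 / 2) (2 * B + 4) h n) : ℝ))) ⊆
      (Finset.Icc 1 N).filter (fun n => (n % 6 = 1 ∨ n % 6 = 3) ∧ ¬ (1 ≤ n / 6 ∧
        c / 3 * (Real.sqrt ((6 * (n / 6) + n % 6 : ℕ) : ℝ) * sing h (6 * (n / 6) + n % 6)) ≤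
        (Set.ncard (Good (c0 / 2) (2 * B + 4) h (6 * (n / 6) + n % 6)) : ℝ))) := by
    intro n hn
    rw [Finset.mem_filter] at hn ⊢
    refine ⟨hn.1, hn.2.1, fun hcon => hn.2.2 ?_⟩
    have h5 : 6 * (n / 6) + n % 6 = n := Nat.div_add_mod n 6
    rw [h5] at hcon
    exact hcon.2
  refine Nat.cast_le.2 (Finset.card_le_card ?_)
  convert h4

end Pool.Agent.Lib.MP_6b8fc7_nt.SR
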