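import Mathlib

set_option autoImplicit false

namespace Pool.Agent.Lib.MP_6b8fc7_nt.SR

open Classical in
lemma count_one (P : ℕ → Prop) (r N : ℕ) :
    ((Finset.Icc 1 N).filter (fun n => n % 6 = r ∧ P (n / 6))).card ≤
      1 + ((Finset.Icc 1 (N / 6)).filter (fun n => P n)).card := by
  have h1 : ((Finset.Icc 1 N).filter (fun n => n % 6 = r ∧ P (n / 6))).card ≤
      (insert 0 ((Finset.Icc 1 (N / 6)).filter (fun n => P n))).card := by
    apply Finset.card_le_card_of_injOn (fun n => n / 6)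
    · intro n hn
      rw [Finset.mem_coe, Finset.mem_filter, Finset.mem_Icc] at hn
      rw [Finset.mem_coe, Finset.mem_insert, Finset.mem_filter, Finset.mem_Icc]
      rcases Nat.eq_zero_or_pos (n / 6) with h | h
      · exact Or.inl h
      · exact Or.inr ⟨⟨h, Nat.div_le_div_right hn.1.2⟩, hn.2.2⟩
    · intro n hn n' hn' h
      rw [Finset.mem_coe, Finset.mem_filter] at hn hn'
      have h1 := hn.2.1
      have h2 := hn'.2.1
      have h3 : n / 6 = n' / 6 := h
      omega
  refine h1.trans ((Finset.card_insert_le _ _).trans ?_)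
  omega

open Classical in
lemma count_transfer (E : ℕ → ℕ → Prop)
    (hE : ∀ r : ℕ, (r = 1 ∨ r = 3) → ∀ A : ℕ, ∀ᶠ N : ℕ in Filter.atTop,
      (((Finset.Icc 1 N).filter (fun n => E r n)).card : ℝ) ≤ N / (Real.log N) ^ A) :
    ∀ A : ℕ, ∀ᶠ N : ℕ in Filter.atTop,
      (((Finset.Icc 1 N).filter (fun n => (n % 6 = 1 ∨ n % 6 = 3) ∧ E (n % 6) (n / 6))).card : ℝ) ≤
        N / (Real.log N) ^ A := by
  intro A
  have hdiv : Filter.Tendsto (fun N : ℕ => N / 6) Filter.atTop Filter.atTop :=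
    Nat.tendsto_div_const_atTop (by norm_num)
  have e1 := hdiv.eventually (hE 1 (Or.inl rfl) (A + 1))
  have e3 := hdiv.eventually (hE 3 (Or.inr rfl) (A + 1))
  have hlog : Filter.Tendsto (fun N : ℕ => Real.log (N : ℝ)) Filter.atTop Filter.atTop :=
    Real.tendsto_log_atTop.comp tendsto_natCast_atTop_atTop
  have eo : ∀ᶠ N : ℕ in Filter.atTop, ‖(Real.log (N : ℝ)) ^ A‖ ≤ 1 / 4 * ‖(N : ℝ)‖ := by
    have h := (Real.isLittleO_pow_log_id_atTop (n := A)).bound (c := 1 / 4) (by norm_num)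
    exact tendsto_natCast_atTop_atTop.eventually h
  filter_upwards [e1, e3, eo, Filter.eventually_ge_atTop 100,
    hlog.eventually_ge_atTop (2 ^ (A + 1) : ℝ)] with N h1 h3 ho hN hL
  have hN' : (100 : ℝ) ≤ N := by exact_mod_cast hN
  have hlog1 : (1 : ℝ) ≤ Real.log N := by
    have : (1 : ℝ) ≤ 2 ^ (A + 1) := one_le_pow₀ (by norm_num)
    linarith
  obtain ⟨M, hM⟩ : ∃ M, M = N / 6 := ⟨_, rfl⟩
  rw [← hM] at h1 h3
  have hM16 : 16 ≤ M := by omega
  have hM16' : (16 : ℝ) ≤ M := by exact_mod_cast hM16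
  have hM6 : (M : ℝ) ≤ N / 6 := by
    rw [le_div_iff₀ (by norm_num)]
    have : M * 6 ≤ N := by omega
    exact_mod_cast this
  have hsq : (N : ℝ) ≤ (M : ℝ) ^ 2 := by
    have : N ≤ M ^ 2 := by
      have h5 : N ≤ 6 * M + 5 := by omega
      nlinarith
    exact_mod_cast this
  have hlogM : Real.log N / 2 ≤ Real.log M := by
    have h5 := Real.log_le_log (by linarith) hsq
    rw [Real.log_pow] at h5
    push_cast at h5
    linarith
  have hpos : 0 < Real.log N / 2 := by linarith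
  have hfrac : (M : ℝ) / (Real.log M) ^ (A + 1) ≤
      (N / 6) / (Real.log N / 2) ^ (A + 1) :=
    div_le_div₀ (by positivity) hM6 (by positivity)
      (pow_le_pow_left₀ hpos.le hlogM (A + 1))
  have hc : (((Finset.Icc 1 N).filter
      (fun n => (n % 6 = 1 ∨ n % 6 = 3) ∧ E (n % 6) (n / 6))).card : ℝ) ≤
      2 + (((Finset.Icc 1 M).filter (fun n => E 1 n)).card : ℝ) +
        (((Finset.Icc 1 M).filter (fun n => E 3 n)).card : ℝ) := by
    have hsub : (Finset.Icc 1 N).filter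
        (fun n => (n % 6 = 1 ∨ n % 6 = 3) ∧ E (n % 6) (n / 6)) ⊆
        (Finset.Icc 1 N).filter (fun n => n % 6 = 1 ∧ E 1 (n / 6)) ∪
        (Finset.Icc 1 N).filter (fun n => n % 6 = 3 ∧ E 3 (n / 6)) := by
      intro n hn
      rw [Finset.mem_filter] at hn
      rw [Finset.mem_union, Finset.mem_filter, Finset.mem_filter]
      obtain ⟨h5, h6 | h6, h7⟩ := hn
      · rw [h6] at h7
        exact Or.inl ⟨h5, h6, h7⟩
      · rw [h6] at h7
        exact Or.inr ⟨h5, h6, h7⟩
    have h5 := (Finset.card_le_card hsub).trans (Finset.card_union_le _ _)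
    have h6 := count_one (E 1) 1 N
    have h7 := count_one (E 3) 3 N
    rw [← hM] at h6 h7
    have h8 : ((Finset.Icc 1 N).filter
        (fun n => (n % 6 = 1 ∨ n % 6 = 3) ∧ E (n % 6) (n / 6))).card ≤
        2 + ((Finset.Icc 1 M).filter (fun n => E 1 n)).card +
        ((Finset.Icc 1 M).filter (fun n => E 3 n)).card := by
      omega
    exact_mod_cast h8
  have hL0 : 0 < (Real.log (N : ℝ)) ^ A := by positivity
  have hL1 : 0 < (Real.log (N : ℝ)) ^ (A + 1) := by positivity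
  have f1 : (2 : ℝ) ≤ 1 / 2 * ((N : ℝ) / (Real.log N) ^ A) := by
    rw [Real.norm_of_nonneg hL0.le, Real.norm_of_nonneg (by linarith)] at ho
    rw [← mul_div_assoc, le_div_iff₀ hL0]
    linarith
  have f2 : 2 * ((N / 6) / (Real.log N / 2) ^ (A + 1)) ≤
      1 / 2 * ((N : ℝ) / (Real.log N) ^ A) := by
    have e : 2 * ((N / 6 : ℝ) / (Real.log N / 2) ^ (A + 1)) =
        (1 / 3 * (2 ^ (A + 1) / Real.log N)) * ((N : ℝ) / (Real.log N) ^ A) := by
      rw [div_pow, pow_succ (Real.log (N : ℝ)) A]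
      field_simp
      ring
    rw [e]
    apply mul_le_mul_of_nonneg_right _ (by positivity)
    have : (2 : ℝ) ^ (A + 1) / Real.log N ≤ 1 := by
      rw [div_le_one (by linarith)]
      exact hL
    linarith
  linarith

end Pool.Agent.Lib.MP_6b8fc7_nt.SR
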