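import Pool.Agent.Lib.MP_6b8fc7_nt.SR.Fam
import Pool.Agent.Lib.MP_6b8fc7_nt.SR.Transfer

set_option autoImplicit false

/-!
The deduction of the theorem on simultaneous representations `n + h = p + 2 q ^ 2`.
-/

namespace Pool.Agent.Lib.MP_6b8fc7_nt.SR

open Finset Polynomial Filter
open ArithmeticFunction (cardFactors)
open Pool.Agent.Lib.MP_0da313_nt (Admissible lineRestrict val singV nroots eval_lineRestrict)

variable {K : ℕ}

/-- the polynomials `c_i - 2 X^2` -/
noncomputable def gq (r : ℕ) (h : Fin K → ℕ) (i : Fin K) : ℤ[X] :=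
  C ((r + h i : ℕ) : ℤ) - C 2 * X ^ 2

/-- the one-variable parts -/
noncomputable def gg (r : ℕ) (h : Fin K → ℕ) : Fin (K + 1) → ℤ[X] := Fin.cons 0 (gq r h)

/-- the family -/
noncomputable def fam (r : ℕ) (h : Fin K → ℕ) : Fin (K + 1) → MvPolynomial (Fin 2) ℤ :=
  Fin.cons (MvPolynomial.X 0) (fun i => MvPolynomial.C 6 * (MvPolynomial.X 0 + MvPolynomial.X 1) +
    Polynomial.aeval (MvPolynomial.X 0) (gq r h i))

lemma lr_zero (r : ℕ) (h : Fin K → ℕ) (n : ℕ) : lineRestrict (fam r h 0) n = X := by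
  unfold Pool.Agent.Lib.MP_0da313_nt.lineRestrict fam
  simp

lemma lr_succ (r : ℕ) (h : Fin K → ℕ) (n : ℕ) (i : Fin K) :
    lineRestrict (fam r h i.succ) n = C ((6 * n + (r + h i : ℕ) : ℕ) : ℤ) - C 2 * X ^ 2 := by
  unfold Pool.Agent.Lib.MP_0da313_nt.lineRestrict fam gq
  simp only [Fin.cons_succ, map_add, map_mul, map_sub, map_pow, MvPolynomial.aeval_X,
    Matrix.cons_val_zero, Matrix.cons_val_one, MvPolynomial.algHom_C, algebraMap_eq,
    Polynomial.aeval_C, Polynomial.aeval_X]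
  simp
  ring

lemma eval_zero (r : ℕ) (h : Fin K → ℕ) (n : ℕ) (x : ℤ) :
    val (fam r h 0) x ((n : ℤ) - x) = x := by
  rw [← eval_lineRestrict, lr_zero, eval_X]

lemma eval_succ (r : ℕ) (h : Fin K → ℕ) (n : ℕ) (i : Fin K) (x : ℤ) :
    val (fam r h i.succ) x ((n : ℤ) - x) = (6 * n + r : ℕ) + (h i : ℤ) - 2 * x ^ 2 := by
  rw [← eval_lineRestrict, lr_succ]
  simp only [eval_sub, eval_C, eval_mul, eval_pow, eval_X]
  push_cast
  ring

lemma prod_val (r : ℕ) (h : Fin K → ℕ) (n : ℕ) (x : ℤ) :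
    ∏ k, val (fam r h k) x ((n : ℤ) - x) =
      x * ∏ i, (((6 * n + r : ℕ) : ℤ) + (h i : ℤ) - 2 * x ^ 2) := by
  rw [Fin.prod_univ_succ, eval_zero]
  congr 1
  exact Finset.prod_congr rfl fun i _ => eval_succ r h n i x

lemma adm (hK : 1 ≤ K) (r : ℕ) (hr : r = 1 ∨ r = 3) (h : Fin K → ℕ)
    (hh : ∀ i, ∀ p : ℕ, p.Prime → p ≤ 2 * K + 1 → p ∣ h i) : Admissible (fam r h) := by
  have h2 : ∀ i, 2 ∣ h i := fun i => hh i 2 Nat.prime_two (by omega)
  refine ⟨0, fun n _ => ⟨fun k => ?_, fun p hp hall => ?_⟩⟩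
  · refine Fin.cases ?_ (fun i => ?_) k
    · rw [lr_zero]
      exact irreducible_X
    · rw [lr_succ]
      apply irr_quad
      have := h2 i
      rcases hr with rfl | rfl <;> omega
  · obtain ⟨x, hx⟩ := local_ok hK ((6 * n + r : ℕ) : ℤ) (by rcases hr with rfl | rfl <;> omega)
      (by rcases hr with rfl | rfl <;> omega) (fun i => (h i : ℤ))
      (fun i p hp hpK => by exact_mod_cast hh i p hp hpK) p hp
    apply hx
    have h3 := hall x
    have h4 : ∏ k, (lineRestrict (fam r h k) n).eval x =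
        x * ∏ i, (((6 * n + r : ℕ) : ℤ) + (h i : ℤ) - 2 * x ^ 2) := by
      rw [← prod_val]
      exact Finset.prod_congr rfl fun k _ => eval_lineRestrict _ _ _
    rwa [h4] at h3

lemma val_at (r : ℕ) (h : Fin K → ℕ) (i : Fin K) : val (fam r h i.succ) 0 0 = ((r + h i : ℕ) : ℤ) := by
  have h1 := eval_succ r h 0 i 0
  simp only [Nat.cast_zero, sub_zero] at h1
  rw [h1]
  push_cast
  ring

lemma dist (r : ℕ) (hr : r = 1 ∨ r = 3) (h : Fin K → ℕ) (hinj : Function.Injective h)
    (i j : Fin K) (hij : i ≠ j) : fam r h i.succ ≠ fam r h j.succ ∧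
      fam r h i.succ ≠ - fam r h j.succ := by
  have h1 := val_at r h i
  have h2 := val_at r h j
  constructor
  · intro heq
    rw [heq, h2] at h1
    have h3 : r + h j = r + h i := by exact_mod_cast h1
    exact hij (hinj (by omega))
  · intro heq
    have h4 : val (- fam r h j.succ) 0 0 = - val (fam r h j.succ) 0 0 := by
      unfold Pool.Agent.Lib.MP_0da313_nt.val
      rw [map_neg]
    rw [heq, h4, h2] at h1
    rcases hr with rfl | rfl <;> push_cast at h1 <;> omega

lemma deg_gq (r : ℕ) (h : Fin K → ℕ) (i : Fin K) : (gq r h i).natDegree = 2 := by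
  unfold gq
  compute_degree!

lemma deg_fam (r : ℕ) (h : Fin K → ℕ) (k : Fin (K + 1)) : (fam r h k).totalDegree ≤ 2 := by
  have hX : ∀ i : Fin 2, (MvPolynomial.X i : MvPolynomial (Fin 2) ℤ).totalDegree ≤ 1 := fun i => by
    rw [MvPolynomial.totalDegree_X]
  refine Fin.cases ?_ (fun i => ?_) k
  · unfold fam
    rw [Fin.cons_zero]
    exact (hX 0).trans (by norm_num)
  · unfold fam gq
    rw [Fin.cons_succ]
    simp only [map_sub, map_mul, map_pow, Polynomial.aeval_C, Polynomial.aeval_X]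
    refine (MvPolynomial.totalDegree_add _ _).trans (max_le ?_ ?_)
    · refine (MvPolynomial.totalDegree_mul _ _).trans ?_
      rw [MvPolynomial.totalDegree_C, zero_add]
      exact ((MvPolynomial.totalDegree_add _ _).trans (max_le (hX 0) (hX 1))).trans (by norm_num)
    · refine (MvPolynomial.totalDegree_sub _ _).trans (max_le ?_ ?_)
      · rw [MvPolynomial.algebraMap_eq, MvPolynomial.totalDegree_C]
        exact Nat.zero_le _
      · refine (MvPolynomial.totalDegree_mul _ _).trans ?_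
        rw [MvPolynomial.algebraMap_eq, MvPolynomial.totalDegree_C, zero_add]
        refine (MvPolynomial.totalDegree_pow _ _).trans ?_
        have := hX 0
        omega

/-- the number of residues `t` mod `p` with `p ∣ t ∏ (n + h_i - 2 t^2)` -/
def om (h : Fin K → ℕ) (n p : ℕ) : ℕ :=
  ((Finset.range p).filter (fun t : ℕ => (p : ℤ) ∣ (t : ℤ) * ∏ i, ((n : ℤ) + h i - 2 * (t : ℤ) ^ 2))).card

/-- the singular product -/
noncomputable def sing (h : Fin K → ℕ) (n : ℕ) : ℝ :=
  ∏ p ∈ (Finset.Icc 1 n).filter Nat.Prime, (1 - (om h n p : ℝ) / p)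

lemma om_le (h : Fin K → ℕ) (n p : ℕ) : om h n p ≤ p := by
  unfold om
  exact (Finset.card_filter_le _ _).trans (by rw [Finset.card_range])

lemma nroots_eq (r : ℕ) (h : Fin K → ℕ) (n p : ℕ) :
    nroots (fam r h) n p = om h (6 * n + r) p := by
  unfold Pool.Agent.Lib.MP_0da313_nt.nroots om
  congr 1
  apply Finset.filter_congr
  intro t _
  rw [prod_val]

lemma sing_le (r : ℕ) (h : Fin K → ℕ) (n : ℕ) : sing h (6 * n + r) ≤ singV (fam r h) n := by
  unfold sing Pool.Agent.Lib.MP_0da313_nt.singV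
  have hsub : (Finset.Icc 1 n).filter Nat.Prime ⊆ (Finset.Icc 1 (6 * n + r)).filter Nat.Prime := by
    intro p hp
    rw [Finset.mem_filter, Finset.mem_Icc] at hp ⊢
    exact ⟨⟨hp.1.1, by omega⟩, hp.2⟩
  have hfac : ∀ p : ℕ, p.Prime → 0 ≤ 1 - (om h (6 * n + r) p : ℝ) / p ∧
      1 - (om h (6 * n + r) p : ℝ) / p ≤ 1 := by
    intro p hp
    have h0 : (0 : ℝ) < p := by exact_mod_cast hp.pos
    have h1 : (om h (6 * n + r) p : ℝ) ≤ p := by exact_mod_cast om_le h _ p
    have h2 : (om h (6 * n + r) p : ℝ) / p ≤ 1 := (div_le_one h0).2 h1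
    have h3 : 0 ≤ (om h (6 * n + r) p : ℝ) / p := by positivity
    constructor <;> linarith
  rw [← Finset.prod_sdiff hsub]
  have h1 : ∏ p ∈ (Finset.Icc 1 n).filter Nat.Prime, (1 - (nroots (fam r h) n p : ℝ) / p) =
      ∏ p ∈ (Finset.Icc 1 n).filter Nat.Prime, (1 - (om h (6 * n + r) p : ℝ) / p) :=
    Finset.prod_congr rfl fun p _ => by rw [nroots_eq]
  rw [h1]
  apply mul_le_of_le_one_left
  · exact Finset.prod_nonneg fun p hp => (hfac p (Finset.mem_filter.1 hp).2).1
  · apply Finset.prod_le_one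
    · intro p hp
      exact (hfac p (Finset.mem_filter.1 (Finset.mem_sdiff.1 hp).1).2).1
    · intro p hp
      exact (hfac p (Finset.mem_filter.1 (Finset.mem_sdiff.1 hp).1).2).2

end Pool.Agent.Lib.MP_6b8fc7_nt.SR
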